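import Mathlib
import Pool.Agent.Helper89.GS2.Defs

/-!
Fillings of crossing balls by solid tori and by pieces with an interval of slopes, in particular
by pieces two peripheral elements of which have mixed torsion.
-/

set_option autoImplicit false

namespace Pool.Agent.Helper76.MX

open Pool.Agent.Helper42.Th hiding Fill
open Pool.Agent.Helper89.GS2 (Near Words)

/-- The least class of elements of the subgroup `K` which contains `x` and `y` and is closed under
products, under conjugation and under taking roots. -/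
inductive Semi {G : Type*} [Group G] (K : Subgroup G) (x y : G) : G → Prop
  | left : Semi K x y x
  | right : Semi K x y y
  | mul {a b : G} : Semi K x y a → Semi K x y b → Semi K x y (a * b)
  | conj {a g : G} : g ∈ K → Semi K x y a → Semi K x y (g * a * g⁻¹)
  | root {a : G} {n : ℕ} : a ∈ K → 0 < n → Semi K x y (a ^ n) → Semi K x y a

/-- Mixed torsion: the least subsemigroup of the subgroup generated by `S` which contains `x` and
`y` and is closed under conjugation and roots contains `1`; for example, a product of `n ≥ 1`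
conjugates of `x` and of `y` is trivial. -/
def Torsion {G : Type*} [Group G] (S : Set G) (x y : G) : Prop :=
  Semi (Subgroup.closure S) x y 1

/-- Two words in the peripheral elements of the ball of `δ` with a determinant different
from `0`. -/
def Pair {E : Type} {G : Type*} [Group G] {Γ : CMap E} (L : Lab G Γ) (δ : E) (x y : G) : Prop :=
  ∃ p q r s : ℤ, p * s ≠ q * r ∧ x = L.D δ ^ p * L.M δ ^ q ∧ y = L.D δ ^ r * L.M δ ^ s

/-- `Fill m a S`: the elements of the set `S` satisfy the relations of the fundamental group of a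
manifold which fills a torus with the peripheral elements `m`, `a`, with positive slopes. -/
inductive Fill {G : Type*} [Group G] : G → G → Set G → Prop
  /-- A solid torus of slope `c / d`. -/
  | solid (m a : G) (d c : ℕ) (hd : 0 < d) (hc : 0 < c) (h : m ^ d = a ^ c) : Fill m a ∅
  /-- The double cover of the complement of the crossing balls of a diagram, all of which but
  the ball of `δ` (neither a loop nor a bridge) are filled with positive slopes; the slopes of
  the words `m`, `a` are negative. -/
  | cone (m a : G) {E : Type} [Finite E] (Γ : CMap E) (L : Lab G Γ) (δ : E)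
      (hl : ∀ i : ℕ, (Γ.rot ^ i) δ ≠ Γ.flip δ) (hb : ∀ i : ℕ, (Γ.dual.rot ^ i) δ ≠ Γ.flip δ)
      (P : Set E) (F : E → Set G) (hP : ∀ d, d ≠ δ → d ≠ Γ.flip δ → d ∈ P ∨ Γ.flip d ∈ P)
      (hF : ∀ d ∈ P, Fill (L.M d) (L.D d) (F d)) (P₁ Q₁ P₂ Q₂ : ℕ) (hP₁ : 0 < P₁)
      (hQ₁ : 0 < Q₁) (hP₂ : 0 < P₂) (hQ₂ : 0 < Q₂) (hdet : P₁ * Q₂ ≠ P₂ * Q₁)
      (hm : m = L.M δ ^ P₁ * (L.D δ)⁻¹ ^ Q₁) (ha : a = L.M δ ^ P₂ * (L.D δ)⁻¹ ^ Q₂) :
      Fill m a (L.elts ∪ ⋃ d ∈ P, F d)
  /-- All balls but the balls of `δ` and `ε` are filled with positive slopes, the ball of `ε` is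
  filled with any slope, `x`, `y` and `m`, `a` are words in the peripheral elements of the ball
  of `δ`, the pair `x`, `y⁻¹` has torsion, and `m`, `a` (or powers of them) are words in `x`, `y`
  with positive exponents. -/
  | mixed (m a : G) {E : Type} [Finite E] (Γ : CMap E) (L : Lab G Γ) (δ ε : E) (hε : Near Γ δ ε)
      (P : Set E) (F : E → Set G) (hP : ∀ d, d ≠ δ → d ≠ Γ.flip δ → d ∈ P ∨ Γ.flip d ∈ P)
      (m' a' : E → G) (hw : ∀ d ∈ P, Words L ε d (m' d) (a' d))
      (hF : ∀ d ∈ P, Fill (m' d) (a' d) (F d)) (x y : G) (hma : Pair L δ m a)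
      (hxy : Pair L δ x y) (h : Torsion (L.elts ∪ ⋃ d ∈ P, F d) x y⁻¹) (i j p q r s : ℕ)
      (hi : 0 < i) (hj : 0 < j) (hp : 0 < p) (hq : 0 < q) (hr : 0 < r) (hs : 0 < s)
      (hm : m ^ i = x ^ p * y ^ q) (ha : a ^ j = x ^ r * y ^ s) :
      Fill m a (L.elts ∪ ⋃ d ∈ P, F d)

end Pool.Agent.Helper76.MX
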