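import Mathlib
import Pool.Agent.Helper42.GS.Sign

/-!
Two commuting automorphisms of a complete linear order which do not move a point in opposite
directions: the signs of the words of their open cone.
-/

set_option autoImplicit false

namespace Pool.Agent.Helper76.MX

open Pool.Agent.Helper31.OrderAct
open Pool.Agent.Helper71.Rot
open Pool.Agent.Helper71.Tree
open Pool.Agent.Helper42.PF
open Pool.Agent.Helper42.GS

variable {Ω : Type*} [CompleteLinearOrder Ω] {x y : Ω ≃o Ω}

/-- `x` and `y` move the point `w` weakly in the same direction. -/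
def Same (x y : Ω ≃o Ω) (w : Ω) : Prop := (x w ≤ w ∧ y w ≤ w) ∨ (w ≤ x w ∧ w ≤ y w)

lemma inv_le' {f : Ω ≃o Ω} {w : Ω} : f⁻¹ w ≤ w ↔ w ≤ f w := by
  constructor
  · intro h
    have := f.monotone h
    rwa [RelIso.apply_inv_self] at this
  · intro h
    have := (f⁻¹).monotone h
    rwa [RelIso.inv_apply_self] at this

lemma le_inv' {f : Ω ≃o Ω} {w : Ω} : w ≤ f⁻¹ w ↔ f w ≤ w := by
  constructor
  · intro h
    have := f.monotone h
    rwa [RelIso.apply_inv_self] at this
  · intro h
    have := (f⁻¹).monotone h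
    rwa [RelIso.inv_apply_self] at this

lemma Same.inv {w : Ω} (h : Same x y w) : Same x⁻¹ y⁻¹ w := by
  rcases h with ⟨h1, h2⟩ | ⟨h1, h2⟩
  · exact Or.inr ⟨le_inv'.mpr h1, le_inv'.mpr h2⟩
  · exact Or.inl ⟨inv_le'.mpr h1, inv_le'.mpr h2⟩

lemma fix_of_inv {f : Ω ≃o Ω} {s : Ω} (h : f⁻¹ s = s) : f s = s := by
  have := inv_fix h
  rwa [inv_inv] at this

/-- A fixed point of a word of the open cone which is not separated by a common fixed point from a
point which is moved in the same direction by both is a common fixed point. -/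
lemma fix_of_word (hc : Commute x y) {p q : ℕ} (hp : 0 < p) (hq : 0 < q) {w v : Ω}
    (hw : Same x y w) (hv : (x ^ p * y ^ q) v = v)
    (hsep : ∀ u, x u = u → y u = u → (u < v → u < w) ∧ (v < u → w < u)) : x v = v ∧ y v = v := by
  have e1 : (x ^ p) v = (y⁻¹ ^ q) v := by
    have h1 := congrArg (fun t => (y⁻¹ ^ q) t) hv
    rw [(hc.pow_pow p q).eq, RelIso.mul_apply] at h1
    change (y⁻¹ ^ q) ((y ^ q) ((x ^ p) v)) = (y⁻¹ ^ q) v at h1
    rw [inv_pow, RelIso.inv_apply_self] at h1
    rw [h1, inv_pow]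
  rcases lt_trichotomy v (y v) with h | h | h
  · -- `y` moves up and `x` down
    exfalso
    have e2 : (x⁻¹ ^ p) v = (y ^ q) v := by
      have h1 := congrArg (fun t => (x⁻¹ ^ p) t) hv
      rw [RelIso.mul_apply] at h1
      change (x⁻¹ ^ p) ((x ^ p) ((y ^ q) v)) = (x⁻¹ ^ p) v at h1
      rw [inv_pow, RelIso.inv_apply_self] at h1
      rw [inv_pow, ← h1]
    obtain ⟨k1, k2, -⟩ := up_of_fix hc.inv_left hp hq e2 h (z := w)
      (fun u h1 h2 => hsep u (fix_of_inv h1) h2)
    have k3 : x w < w := by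
      have := x.lt_iff_lt.mpr k2
      rwa [RelIso.apply_inv_self] at this
    rcases hw with ⟨h1, h2⟩ | ⟨h1, h2⟩
    · exact absurd k1 (not_lt.mpr h2)
    · exact absurd k3 (not_lt.mpr h1)
  · refine ⟨root_fix hp ?_, h.symm⟩
    rw [e1]
    exact pow_fix' q (inv_fix h.symm)
  · exfalso
    have h' : v < y⁻¹ v := by
      have := (y⁻¹).lt_iff_lt.mpr h
      rwa [RelIso.inv_apply_self] at this
    obtain ⟨k1, k2, -⟩ := up_of_fix hc.inv_right hp hq e1 h' (z := w)
      (fun u h1 h2 => hsep u h1 (fix_of_inv h2))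
    have k3 : y w < w := by
      have := y.lt_iff_lt.mpr k1
      rwa [RelIso.apply_inv_self] at this
    rcases hw with ⟨h1, h2⟩ | ⟨h1, h2⟩
    · exact absurd k2 (not_lt.mpr h1)
    · exact absurd k3 (not_lt.mpr h2)

/-- The upward case of `cone_sign`. -/
lemma cone_up (hc : Commute x y) {w z : Ω} (hw : w ≤ x w ∧ w ≤ y w) (hne : ¬(x w = w ∧ y w = w))
    (hsep : ∀ v, x v = v → y v = v → (v < w → v < z) ∧ (w < v → z < v))
    {m a : Ω ≃o Ω} {i j p q r s : ℕ} (hi : 0 < i) (hj : 0 < j) (hp : 0 < p) (hq : 0 < q)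
    (hr : 0 < r) (hs : 0 < s) (hm : m ^ i = x ^ p * y ^ q) (ha : a ^ j = x ^ r * y ^ s) :
    z < a z ∧ z < m z ∧ ∃ e : ℕ, m z ≤ (a ^ e) z := by
  -- a common fixed point is on the same side of `w` and of `z`
  have side : ∀ v, x v = v → y v = v → (v < z → v < w) ∧ (z < v → w < v) := by
    intro v h1 h2
    obtain ⟨k1, k2⟩ := hsep v h1 h2
    constructor
    · intro h
      rcases lt_trichotomy v w with h3 | h3 | h3
      · exact h3
      · exact absurd ⟨h3 ▸ h1, h3 ▸ h2⟩ hne
      · exact absurd (k2 h3) (not_lt.mpr h.le)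
    · intro h
      rcases lt_trichotomy v w with h3 | h3 | h3
      · exact absurd (k1 h3) (not_lt.mpr h.le)
      · exact absurd ⟨h3 ▸ h1, h3 ▸ h2⟩ hne
      · exact h3
  -- the words of the open cone move `z` up
  have up : ∀ {f : Ω ≃o Ω} {k p q : ℕ}, 0 < k → 0 < p → 0 < q → f ^ k = x ^ p * y ^ q →
      z < f z := by
    intro f k p q hk hp hq hf
    have hfw : w < f w := by
      by_contra hn
      push Not at hn
      have h1 : (x ^ p * y ^ q) w ≤ w := by
        rw [← hf]
        exact pow_le hn k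
      have h2 : w ≤ (x ^ p * y ^ q) w := by
        rw [RelIso.mul_apply]
        exact (pow_ge hw.1 p).trans ((x ^ p).monotone (pow_ge hw.2 q))
      exact hne (fix_of_word hc hp hq (Or.inr hw) (le_antisymm h1 h2) fun u _ _ => ⟨id, id⟩)
    by_contra hn
    push Not at hn
    obtain ⟨v, hv, h1, h2⟩ := exists_fix f hfw.le hn
    have hv' : (x ^ p * y ^ q) v = v := by
      rw [← hf]
      exact pow_fix' k hv
    have hvw : v ≠ w := fun e => absurd (e ▸ hv) hfw.ne'
    obtain ⟨k1, k2⟩ := fix_of_word hc hp hq (w := w) (Or.inr hw) hv' (by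
      intro u hu1 hu2
      obtain ⟨k1, k2⟩ := side u hu1 hu2
      have huw : u ≠ w := fun e => hne ⟨e ▸ hu1, e ▸ hu2⟩
      constructor
      · intro h
        rcases h2 with h2 | h2
        · exact h.trans_le h2
        · exact k1 (h.trans_le h2)
      · intro h
        rcases h1 with h1 | h1
        · exact h1.trans_lt h
        · exact k2 (h1.trans_lt h))
    obtain ⟨k3, k4⟩ := hsep v k1 k2
    rcases lt_or_gt_of_ne hvw with h | h
    · have h5 := k3 h
      rcases h1 with h1 | h1
      · exact absurd h (not_lt.mpr h1)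
      · exact absurd h5 (not_lt.mpr h1)
    · have h5 := k4 h
      rcases h2 with h2 | h2
      · exact absurd h (not_lt.mpr h2)
      · exact absurd h5 (not_lt.mpr h2)
  refine ⟨up hj hr hs ha, up hi hp hq hm, ?_⟩
  by_contra hn
  push Not at hn
  set v := ⨆ n : ℕ, (a ^ n) z with hv
  have haz : z < a z := up hj hr hs ha
  have hzv : z < v := haz.trans_le (by
    have := le_iSup (fun n : ℕ => (a ^ n) z) 1
    rwa [pow_one] at this)
  have hav : a v = v := by
    have mono : ∀ i j : ℕ, i ≤ j → (a ^ i) z ≤ (a ^ j) z := by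
      intro i j hij
      obtain ⟨k, rfl⟩ := Nat.exists_eq_add_of_le hij
      rw [pow_add, RelIso.mul_apply]
      exact (a ^ i).monotone (pow_ge haz.le k)
    rw [hv, OrderIso.map_iSup]
    apply le_antisymm
    · refine iSup_le fun n => ?_
      rw [← RelIso.mul_apply, ← pow_succ']
      exact le_iSup (fun n : ℕ => (a ^ n) z) (n + 1)
    · refine iSup_le fun n => ?_
      refine (mono n (n + 1) (by omega)).trans ?_
      rw [pow_succ', RelIso.mul_apply]
      exact le_iSup (fun n : ℕ => a ((a ^ n) z)) n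
  have hvm : v ≤ m z := iSup_le fun n => (hn n).le
  obtain ⟨k1, k2⟩ := fix_of_word hc hr hs (w := w) (v := v) (Or.inr hw) (by
    rw [← ha]
    exact pow_fix' j hav) (by
    intro u hu1 hu2
    obtain ⟨k1, k2⟩ := side u hu1 hu2
    constructor
    · intro h
      apply k1
      by_contra hzu
      push Not at hzu
      have hau : a u = u := by
        refine root_fix hj ?_
        rw [ha, RelIso.mul_apply, pow_fix' s hu2, pow_fix' r hu1]
      refine absurd h (not_lt.mpr (iSup_le fun n => ?_))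
      have h3 := (a ^ n).monotone hzu
      rwa [pow_fix' n hau] at h3
    · intro h
      exact k2 (hzv.trans h))
  have hmv : m v = v := by
    refine root_fix hi ?_
    rw [hm, RelIso.mul_apply, pow_fix' q k2, pow_fix' p k1]
  have h3 := m.lt_iff_lt.mpr hzv
  rw [hmv] at h3
  exact absurd h3 (not_lt.mpr hvm)

/-- The signs of two words of the open cone of two commuting automorphisms which move a point `w`
weakly in the same direction. -/
lemma cone_sign (hc : Commute x y) {w z : Ω} (hw : Same x y w)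
    (hsep : ∀ v, x v = v → y v = v → (v < w → v < z) ∧ (w < v → z < v))
    (heq : x w = w → y w = w → z = w)
    {m a : Ω ≃o Ω} (hma : Commute m a) {i j p q r s : ℕ} (hi : 0 < i) (hj : 0 < j) (hp : 0 < p) (hq : 0 < q)
    (hr : 0 < r) (hs : 0 < s) (hm : m ^ i = x ^ p * y ^ q) (ha : a ^ j = x ^ r * y ^ s) :
    (m z = z ∧ a z = z) ∨ (z < a z ∧ z < m z ∧ ∃ e : ℕ, m z ≤ (a ^ e) z) ∨
      (a z < z ∧ m z < z ∧ ∃ e : ℕ, (a ^ e) z ≤ m z) := by
  by_cases hne : x w = w ∧ y w = w
  · left
    obtain rfl := heq hne.1 hne.2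
    constructor
    · refine root_fix hi ?_
      rw [hm, RelIso.mul_apply, pow_fix' q hne.2, pow_fix' p hne.1]
    · refine root_fix hj ?_
      rw [ha, RelIso.mul_apply, pow_fix' s hne.2, pow_fix' r hne.1]
  rcases hw with hw | hw
  · right
    right
    have hm' : m⁻¹ ^ i = x⁻¹ ^ p * y⁻¹ ^ q := by
      rw [inv_pow, hm, mul_inv_rev, inv_pow, inv_pow, ← inv_pow y, ← inv_pow x,
        (hc.inv_inv.pow_pow p q).eq]
    have ha' : a⁻¹ ^ j = x⁻¹ ^ r * y⁻¹ ^ s := by
      rw [inv_pow, ha, mul_inv_rev, inv_pow, inv_pow, ← inv_pow y, ← inv_pow x,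
        (hc.inv_inv.pow_pow r s).eq]
    obtain ⟨k1, k2, e, k3⟩ := cone_up hc.inv_inv (w := w) (z := z)
      ⟨le_inv'.mpr hw.1, le_inv'.mpr hw.2⟩ (fun h => hne ⟨fix_of_inv h.1, fix_of_inv h.2⟩)
      (fun v h1 h2 => hsep v (fix_of_inv h1) (fix_of_inv h2)) hi hj hp hq hr hs hm' ha'
    refine ⟨?_, ?_, e, ?_⟩
    · have := a.lt_iff_lt.mpr k1
      rwa [RelIso.apply_inv_self] at this
    · have := m.lt_iff_lt.mpr k2
      rwa [RelIso.apply_inv_self] at this
    · have h1 := (m * a ^ e).monotone k3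
      rw [(hma.pow_right e).eq, RelIso.mul_apply, RelIso.apply_inv_self, ← (hma.pow_right e).eq,
        RelIso.mul_apply, ← RelIso.mul_apply (a ^ e), inv_pow, mul_inv_cancel] at h1
      exact h1
  · right
    left
    exact cone_up hc hw hne hsep hi hj hp hq hr hs hm ha

/-- Under weak sign conditions at two points there is a point between them which is moved in the
same direction by both. -/
lemma exists_same {u v : Ω} (hu : x u ≤ u ∨ u ≤ y u) (hv : v ≤ x v ∨ y v ≤ v) :
    ∃ w, Same x y w ∧ (u ≤ w ∨ v ≤ w) ∧ (w ≤ u ∨ w ≤ v) := by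
  have hx : ∀ w, x w = w → Same x y w := by
    intro w h
    rcases le_total (y w) w with h1 | h1
    · exact Or.inl ⟨h.le, h1⟩
    · exact Or.inr ⟨h.ge, h1⟩
  have hy : ∀ w, y w = w → Same x y w := by
    intro w h
    rcases le_total (x w) w with h1 | h1
    · exact Or.inl ⟨h1, h.le⟩
    · exact Or.inr ⟨h1, h.ge⟩
  rcases hu with hu | hu
  · rcases hv with hv | hv
    · obtain ⟨w, h1, h2, h3⟩ := exists_fix x hv hu
      exact ⟨w, hx w h1, h2.symm, h3.symm⟩
    · rcases le_total (y u) u with h | h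
      · exact ⟨u, Or.inl ⟨hu, h⟩, Or.inl le_rfl, Or.inl le_rfl⟩
      · obtain ⟨w, h1, h2, h3⟩ := exists_fix y h hv
        exact ⟨w, hy w h1, h2, h3⟩
  · rcases hv with hv | hv
    · rcases le_total (x u) u with h | h
      · obtain ⟨w, h1, h2, h3⟩ := exists_fix x hv h
        exact ⟨w, hx w h1, h2.symm, h3.symm⟩
      · exact ⟨u, Or.inr ⟨h, hu⟩, Or.inl le_rfl, Or.inl le_rfl⟩
    · obtain ⟨w, h1, h2, h3⟩ := exists_fix y hu hv
      exact ⟨w, hy w h1, h2, h3⟩

end Pool.Agent.Helper76.MX
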