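import Mathlib
import Pool.Agent.Helper76.MX.Defs
import Pool.Agent.Helper76.MX.Sign

/-!
What mixed torsion means for actions on complete linear orders.
-/

set_option autoImplicit false

namespace Pool.Agent.Helper76.MX

open Pool.Agent.Helper31.OrderAct
open Pool.Agent.Helper71.Rot
open Pool.Agent.Helper71.Tree
open Pool.Agent.Helper42.PF
open Pool.Agent.Helper42.GS (spec_of_sign)

variable {Ω : Type*} [CompleteLinearOrder Ω] {G : Type*} [Group G] (ρ : G →* (Ω ≃o Ω))

/-- The elements of the least semigroup which contains two elements that move up an orbit and is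
closed under conjugation and roots move it up. -/
lemma lt_semi {K : Subgroup G} {x y : G} {z : Ω} (hx : ∀ g ∈ K, ρ g z < ρ x (ρ g z))
    (hy : ∀ g ∈ K, ρ g z < ρ y (ρ g z)) (hxK : x ∈ K) (hyK : y ∈ K) {a : G}
    (ha : Semi K x y a) : a ∈ K ∧ ∀ t ∈ K, ρ t z < ρ a (ρ t z) := by
  induction ha with
  | left => exact ⟨hxK, hx⟩
  | right => exact ⟨hyK, hy⟩
  | @mul a b _ _ iha ihb =>
    refine ⟨K.mul_mem iha.1 ihb.1, fun t ht => (ihb.2 t ht).trans ?_⟩
    have h1 := iha.2 (b * t) (K.mul_mem ihb.1 ht)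
    rwa [map_mul, RelIso.mul_apply, ← RelIso.mul_apply (ρ a), ← map_mul] at h1
  | @conj a g hg _ ih =>
    refine ⟨K.mul_mem (K.mul_mem hg ih.1) (K.inv_mem hg), fun t ht => ?_⟩
    have h2 := (ρ g).lt_iff_lt.mpr (ih.2 (g⁻¹ * t) (K.mul_mem (K.inv_mem hg) ht))
    rw [← RelIso.mul_apply, ← map_mul, mul_inv_cancel_left, ← RelIso.mul_apply,
      ← RelIso.mul_apply, ← map_mul, ← map_mul] at h2
    rw [← RelIso.mul_apply, ← map_mul]
    simpa only [mul_assoc] using h2
  | @root a n haK hn _ ih =>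
    refine ⟨haK, fun t ht => ?_⟩
    by_contra h
    push Not at h
    have h1 := ih.2 t ht
    rw [map_pow] at h1
    exact absurd h1 (not_lt.mpr (pow_le h n))

lemma Semi.inv {K : Subgroup G} {x y a : G} (h : Semi K x y a) : Semi K x⁻¹ y⁻¹ a⁻¹ := by
  induction h with
  | left => exact Semi.left
  | right => exact Semi.right
  | mul _ _ iha ihb =>
    rw [mul_inv_rev]
    exact Semi.mul ihb iha
  | @conj a g hg _ ih =>
    rw [show (g * a * g⁻¹)⁻¹ = g * a⁻¹ * g⁻¹ by group]
    exact Semi.conj hg ih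
  | root haK hn _ ih =>
    rw [← inv_pow] at ih
    exact Semi.root (K.inv_mem haK) hn ih

/-- A pair with torsion moves some points of every orbit weakly down and some weakly up. -/
lemma points_of_torsion {S : Set G} {x y : G} (hx : x ∈ Subgroup.closure S)
    (hy : y ∈ Subgroup.closure S) (h : Torsion S x y) (z : Ω) :
    (∃ g ∈ Subgroup.closure S, ρ x (ρ g z) ≤ ρ g z ∨ ρ y (ρ g z) ≤ ρ g z) ∧
      ∃ g ∈ Subgroup.closure S, ρ g z ≤ ρ x (ρ g z) ∨ ρ g z ≤ ρ y (ρ g z) := by
  set K := Subgroup.closure S with hK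
  constructor
  · by_contra hn
    push Not at hn
    have h2 := (lt_semi ρ (fun g hg => (hn g hg).1) (fun g hg => (hn g hg).2) hx hy h).2 1
      K.one_mem
    rw [map_one] at h2
    exact lt_irrefl _ h2
  · by_contra hn
    push Not at hn
    have h2 : ∀ u : G, (∀ g ∈ K, ρ u (ρ g z) < ρ g z) → ∀ g ∈ K, ρ g z < ρ u⁻¹ (ρ g z) := by
      intro u hu g hg
      have h3 := (ρ u⁻¹).lt_iff_lt.mpr (hu g hg)
      rwa [← RelIso.mul_apply, ← map_mul, inv_mul_cancel, map_one] at h3
    have h3 := (lt_semi ρ (h2 x fun g hg => (hn g hg).1) (h2 y fun g hg => (hn g hg).2)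
      (K.inv_mem hx) (K.inv_mem hy) (Semi.inv h)).2 1 K.one_mem
    rw [inv_one, map_one] at h3
    exact lt_irrefl _ h3

/-- Words of the open cone of a pair `x`, `y`, where `x`, `y⁻¹` has torsion, act as the peripheral
elements of a solid torus of positive slope. -/
theorem mixed_spec {S : Set G} {x y m a : G} (hxy : Commute x y) (hma : Commute m a)
    (hx : x ∈ Subgroup.closure S) (hy : y ∈ Subgroup.closure S) (h : Torsion S x y⁻¹)
    {i j p q r s : ℕ} (hi : 0 < i) (hj : 0 < j) (hp : 0 < p) (hq : 0 < q) (hr : 0 < r)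
    (hs : 0 < s) (hm : m ^ i = x ^ p * y ^ q) (ha : a ^ j = x ^ r * y ^ s)
    (hfix : ∀ z, ρ x z = z → ρ y z = z → ∀ g ∈ Subgroup.closure S, ρ g z = z)
    (hfix' : ∀ z, ρ m z = z → ρ a z = z → ∀ g ∈ Subgroup.closure S, ρ g z = z) :
    FillSpec true (some 0) none (ρ m) (ρ a) (ρ '' S) := by
  refine spec_of_sign (hma.map ρ) ?_ ?_
  · rintro z h1 h2 _ ⟨g, hg, rfl⟩
    exact hfix' z h1 h2 g (Subgroup.subset_closure hg)
  intro z
  set K := Subgroup.closure S with hK
  obtain ⟨⟨g₁, hg₁, h1⟩, ⟨g₂, hg₂, h2⟩⟩ := points_of_torsion ρ hx (K.inv_mem hy) h z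
  obtain ⟨w, hw, h3, h4⟩ := exists_same (x := ρ x) (y := ρ y) (u := ρ g₁ z) (v := ρ g₂ z)
    (h1.imp id fun h => by rwa [map_inv, inv_le'] at h)
    (h2.imp id fun h => by rwa [map_inv, le_inv'] at h)
  refine cone_sign (x := ρ x) (y := ρ y) (hxy.map ρ) hw ?_ ?_ (hma.map ρ) hi hj hp hq hr hs ?_ ?_
  · intro v e1 e2
    have hv := hfix v e1 e2
    constructor
    · intro e3
      by_contra hn
      push Not at hn
      rcases h4 with h4 | h4
      · have h6 := (ρ g₁).monotone hn
        rw [hv g₁ hg₁] at h6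
        exact absurd e3 (not_lt.mpr (h4.trans h6))
      · have h6 := (ρ g₂).monotone hn
        rw [hv g₂ hg₂] at h6
        exact absurd e3 (not_lt.mpr (h4.trans h6))
    · intro e3
      by_contra hn
      push Not at hn
      rcases h3 with h3 | h3
      · have h6 := (ρ g₁).monotone hn
        rw [hv g₁ hg₁] at h6
        exact absurd e3 (not_lt.mpr (h6.trans h3))
      · have h6 := (ρ g₂).monotone hn
        rw [hv g₂ hg₂] at h6
        exact absurd e3 (not_lt.mpr (h6.trans h3))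
  · intro e1 e2
    have hv := hfix w e1 e2
    apply le_antisymm
    · rcases h3 with h3 | h3
      · apply (ρ g₁).le_iff_le.mp
        rwa [hv g₁ hg₁]
      · apply (ρ g₂).le_iff_le.mp
        rwa [hv g₂ hg₂]
    · rcases h4 with h4 | h4
      · apply (ρ g₁).le_iff_le.mp
        rwa [hv g₁ hg₁]
      · apply (ρ g₂).le_iff_le.mp
        rwa [hv g₂ hg₂]
  · rw [← map_pow, hm, map_mul, map_pow, map_pow]
  · rw [← map_pow, ha, map_mul, map_pow, map_pow]

end Pool.Agent.Helper76.MX
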