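import Mathlib
import Pool.Agent.Helper89.GS2.Main
import Pool.Agent.Helper76.MX.Spec

/-!
Diagrams the crossing balls of which are filled with solid tori, pieces and pieces with mixed
torsion, one ball being filled with any slope.
-/

set_option autoImplicit false

namespace Pool.Agent.Helper76.MX

open Pool.Agent.Helper42.Th hiding Fill
open Pool.Agent.Helper31.OrderAct
open Pool.Agent.Helper71.Rot
open Pool.Agent.Helper71.Tree
open Pool.Agent.Helper42.PF
open Pool.Agent.Helper42.GS (mem_closure_D mem_closure_M words_comm all_fix)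
open Pool.Agent.Helper89.GS2 (Near Words fix_elts)

section spec

variable {G : Type*} [Group G]

lemma Pair.comm {E : Type} {Γ : CMap E} {L : Lab G Γ} {δ : E} {x y : G} (h : Pair L δ x y) :
    Commute x y := by
  obtain ⟨p, q, r, s, -, rfl, rfl⟩ := h
  exact words_comm (comm_MD L δ).symm p q r s

lemma Pair.mem {E : Type} {Γ : CMap E} {L : Lab G Γ} {δ : E} {x y : G} (h : Pair L δ x y)
    (T : Set G) : x ∈ Subgroup.closure (L.elts ∪ T) ∧ y ∈ Subgroup.closure (L.elts ∪ T) := by
  obtain ⟨p, q, r, s, -, rfl, rfl⟩ := h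
  have hD := mem_closure_D L T δ
  have hM := mem_closure_M L T δ
  exact ⟨mul_mem (zpow_mem hD _) (zpow_mem hM _), mul_mem (zpow_mem hD _) (zpow_mem hM _)⟩

lemma Pair.fix {E : Type} {Γ : CMap E} {L : Lab G Γ} {δ : E} {x y : G} (h : Pair L δ x y)
    {Ω : Type*} [CompleteLinearOrder Ω] (ρ : G →* (Ω ≃o Ω)) {z : Ω} (hx : ρ x z = z)
    (hy : ρ y z = z) : ρ (L.D δ) z = z ∧ ρ (L.M δ) z = z := by
  obtain ⟨p, q, r, s, hdet, rfl, rfl⟩ := h
  rw [map_mul, map_zpow, map_zpow] at hx hy
  have hc : Commute (L.D δ) (L.M δ) := (comm_MD L δ).symm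
  exact fix_of_words (hc.map ρ) hdet hx hy

/-- What a filling means for the action. -/
theorem spec_of_fill {Ω : Type*} [CompleteLinearOrder Ω] (ρ : G →* (Ω ≃o Ω)) {m a : G}
    {S : Set G} (h : Fill m a S) : FillSpec true (some 0) none (ρ m) (ρ a) (ρ '' S) := by
  induction h with
  | solid m a d c hd hc h =>
    rw [Set.image_empty]
    refine solid_spec (d := d) (c := c) (by exact_mod_cast hd) ?_ ?_ ?_
    · intro k' hk'
      obtain rfl := Option.some_injective _ hk'
      refine ⟨by simp, fun _ h2 => ?_⟩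
      rw [zero_mul] at h2
      exact absurd (by exact_mod_cast h2.symm) hc.ne'
    · intro k' hk'
      exact absurd hk' (by simp)
    · rw [zpow_natCast, zpow_natCast, ← map_pow, ← map_pow, h]
  | cone m a Γ L δ hl hb P F hP hF P₁ Q₁ P₂ Q₂ hP₁ hQ₁ hP₂ hQ₂ hdet hm ha ih =>
    have hps := lab_spec L ρ hl hb hP (fun d hd => ih d hd)
    have := PieceSpec.glue (strict := true) (lo := some 0) (hi := none) hps (P₁ := P₁) (Q₁ := Q₁)
      (P₂ := P₂) (Q₂ := Q₂) (by exact_mod_cast hP₂) (by exact_mod_cast hQ₂)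
      (by exact_mod_cast hdet) (by
        intro k' hk'
        obtain rfl := Option.some_injective _ hk'
        rw [zero_mul, zero_mul]
        exact ⟨by exact_mod_cast hP₁, by exact_mod_cast hQ₁⟩) (by
        intro k' hk'
        exact absurd hk' (by simp))
    rw [hm, ha, map_mul, map_mul, map_pow, map_pow, map_pow, map_pow]
    simpa only [zpow_natCast] using this
  | mixed m a Γ L δ ε hN P F hP m' a' hw hF x y hma hxy h i j p q r s hi hj hp hq hr hs hm ha
      ih =>
    have hmem := hxy.mem (⋃ d ∈ P, F d)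
    refine mixed_spec ρ hxy.comm hma.comm hmem.1 hmem.2 h hi hj hp hq hr hs hm ha ?_ ?_
    · intro z h1 h2
      obtain ⟨h3, h4⟩ := hxy.fix ρ h1 h2
      exact fix_elts ρ L hN hP hw (fun d hd => ih d hd) h3 h4
    · intro z h1 h2
      obtain ⟨h3, h4⟩ := hma.fix ρ h1 h2
      exact fix_elts ρ L hN hP hw (fun d hd => ih d hd) h3 h4

end spec

section main

variable {E : Type} [Finite E] {G : Type*} [Group G] (Γ : CMap E) (L : Lab G Γ) (δ ε : E)
  (P : Set E) (F : E → Set G) (m' a' : E → G) (F₀ : Set G)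

/-- The group fixes a point of the order of its lower sets which is fixed by the peripheral
elements. -/
lemma fix_group {Ω : Type*} [CompleteLinearOrder Ω] (ρ : G →* (Ω ≃o Ω)) (hN : Near Γ δ ε)
    (hP : ∀ d, d ≠ δ → d ≠ Γ.flip δ → d ∈ P ∨ Γ.flip d ∈ P)
    (hw : ∀ d ∈ P, Words L ε d (m' d) (a' d)) (hF : ∀ d ∈ P, Fill (m' d) (a' d) (F d))
    (hgen : Subgroup.closure ((L.elts ∪ ⋃ d ∈ P, F d) ∪ F₀) = ⊤) {z : Ω}
    (hD : ρ (L.D δ) z = z) (hM : ρ (L.M δ) z = z) (h₀ : ∀ g ∈ F₀, ρ g z = z) (g : G) :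
    ρ g z = z := by
  have hall := fix_elts ρ L hN hP hw (fun d hd => spec_of_fill ρ (hF d hd)) hD hM
  have hg : g ∈ Subgroup.closure ((L.elts ∪ ⋃ d ∈ P, F d) ∪ F₀) := by
    rw [hgen]
    trivial
  induction hg using Subgroup.closure_induction with
  | mem y hy =>
    rcases hy with hy | hy
    · exact hall y (Subgroup.subset_closure hy)
    · exact h₀ y hy
  | one => rw [map_one]; rfl
  | mul a b _ _ ha hb => rw [map_mul, RelIso.mul_apply, hb, ha]
  | inv a _ ha => rw [map_inv]; exact inv_fix ha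

/-- The main theorem. -/
theorem main (hN : Near Γ δ ε) (hP : ∀ d, d ≠ δ → d ≠ Γ.flip δ → d ∈ P ∨ Γ.flip d ∈ P)
    (hw : ∀ d ∈ P, Words L ε d (m' d) (a' d)) (hF : ∀ d ∈ P, Fill (m' d) (a' d) (F d))
    (h : (ε = δ ∧ Fill (L.M δ) (L.D δ) F₀) ∨ ∃ l c : G, Pair L δ l c ∧ Fill l c F₀ ∧
      Torsion ((L.elts ∪ ⋃ d ∈ P, F d) ∪ F₀) l c)
    (hgen : Subgroup.closure ((L.elts ∪ ⋃ d ∈ P, F d) ∪ F₀) = ⊤) :
    ¬ (Nontrivial G ∧ ∃ _ : LinearOrder G, ∀ f g h : G, g ≤ h → f * g ≤ f * h) := by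
  rintro ⟨hnt, ⟨ho, hmul⟩⟩
  set ρ := cutHom hmul with hρ
  have hIic : ∀ u v : G, ρ u (LowerSet.Iic v) = LowerSet.Iic (u * v) := by
    intro u v
    ext w
    change w ∈ cutHom hmul u (LowerSet.Iic v) ↔ w ∈ LowerSet.Iic (u * v)
    rw [mem_cutHom]
    change u⁻¹ * w ≤ v ↔ w ≤ u * v
    constructor
    · intro h
      have := hmul u _ _ h
      rwa [mul_inv_cancel_left] at this
    · intro h
      have := hmul u⁻¹ _ _ h
      rwa [inv_mul_cancel_left] at this
  -- there is a point between two elements which is fixed by the group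
  obtain ⟨z, hall, ⟨t, ht⟩, ⟨s, hs⟩⟩ : ∃ z : LowerSet G, (∀ g : G, ρ g z = z) ∧
      (∃ t : G, t ∈ z) ∧ ∃ s : G, z ≤ LowerSet.Iic s := by
    rcases h with ⟨he, h⟩ | ⟨l, c, hpair, hfill, htors⟩
    · refine ⟨LowerSet.Iic 1, ?_, ⟨1, le_refl (1 : G)⟩, 1, le_rfl⟩
      set z : LowerSet G := LowerSet.Iic 1
      classical
      have h1 : ∀ d, d ∈ insert δ P ∨ Γ.flip d ∈ insert δ P := by
        intro d
        by_cases e1 : d = δ
        · exact Or.inl (Or.inl e1)
        by_cases e2 : d = Γ.flip δ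
        · right
          left
          rw [e2, Γ.flip_flip]
        · exact (hP d e1 e2).imp Or.inr Or.inr
      have h2 : ∀ d ∈ insert δ P, FillSpec true (some 0) none (ρ (L.M d)) (ρ (L.D d))
          (ρ '' (fun e => if e = δ then F₀ else F e) d) := by
        intro d hd
        by_cases e1 : d = δ
        · subst e1
          simpa using spec_of_fill ρ h
        · have h3 : d ∈ P := hd.resolve_left e1
          rcases hw d h3 with ⟨k1, k2⟩ | ⟨k1, -⟩
          · have h4 := spec_of_fill ρ (hF d h3)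
            rw [k1, k2] at h4
            simpa [e1] using h4
          · exact absurd (k1.trans he) e1
      obtain ⟨h3, h4⟩ := all_fix L ρ h1 h2 z δ
      refine fix_group Γ L δ ε P F m' a' F₀ ρ hN hP hw hF hgen h3 h4 ?_
      intro g hg
      exact (spec_of_fill ρ h).fix z h4 h3 _ ⟨g, hg, rfl⟩
    · have hspec := spec_of_fill ρ hfill
      have hlc : ρ l * ρ c = ρ c * ρ l := (hpair.comm.map ρ).eq
      -- `l` and `c` move every point in the same direction
      have hstr : ∀ z, ρ l z = z → ρ c z = z := by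
        intro z hz
        have h3 := hspec.str hlc rfl 0 rfl z
        rw [neg_zero, zpow_zero, one_mul] at h3
        exact h3 hz
      have hlow := (hspec.bd hlc).lower 0 rfl
      rw [neg_zero, zpow_zero, one_mul] at hlow
      obtain ⟨⟨g₁, -, h1⟩, ⟨g₂, -, h2⟩⟩ := points_of_torsion ρ
        (S := (L.elts ∪ ⋃ d ∈ P, F d) ∪ F₀) (x := l) (y := c) (by rw [hgen]; trivial)
        (by rw [hgen]; trivial) htors (LowerSet.Iic (1 : G))
      have h3 : ρ l (ρ g₁ (LowerSet.Iic 1)) ≤ ρ g₁ (LowerSet.Iic 1) := by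
        rcases h1 with h1 | h1
        · exact h1
        · exact (hlow.dn _ h1).1
      have h4 : ρ g₂ (LowerSet.Iic 1) ≤ ρ l (ρ g₂ (LowerSet.Iic 1)) := by
        rcases h2 with h2 | h2
        · exact h2
        · exact (hlow.up _ h2).1
      obtain ⟨z, hz, h5, h6⟩ := exists_fix (ρ l) h4 h3
      obtain ⟨hD, hM⟩ := hpair.fix ρ hz (hstr z hz)
      refine ⟨z, fix_group Γ L δ ε P F m' a' F₀ ρ hN hP hw hF hgen hD hM ?_, ?_, ?_⟩
      · intro g hg
        exact hspec.fix z hz (hstr z hz) _ ⟨g, hg, rfl⟩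
      · rcases h5 with h5 | h5
        · rw [hIic, mul_one] at h5
          exact ⟨g₂, h5 (le_refl g₂)⟩
        · rw [hIic, mul_one] at h5
          exact ⟨g₁, h5 (le_refl g₁)⟩
      · rcases h6 with h6 | h6
        · rw [hIic, mul_one] at h6
          exact ⟨g₂, h6⟩
        · rw [hIic, mul_one] at h6
          exact ⟨g₁, h6⟩
  have htop : ∀ g : G, g ∈ z := by
    intro g
    rw [← hall (g * t⁻¹)]
    change g ∈ cutHom hmul (g * t⁻¹) z
    rw [mem_cutHom]
    simpa using ht
  have hle : ∀ g : G, g ≤ s := fun g => hs (htop g)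
  have key : ∀ u v : G, u ≤ v := by
    intro u v
    have h1 := hmul (s * v⁻¹)⁻¹ _ _ ((hle (s * v⁻¹ * u)).trans
      (le_of_eq (by rw [inv_mul_cancel_right]) : s ≤ s * v⁻¹ * v))
    rwa [inv_mul_cancel_left, inv_mul_cancel_left] at h1
  obtain ⟨u, v, huv⟩ := exists_pair_ne G
  exact huv (le_antisymm (key u v) (key v u))

end main

end Pool.Agent.Helper76.MX
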