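import Mathlib
import Pool.Agent.Helper76.MX.Main

/-!
Generalized torsion elements are a special case of mixed torsion: the older notion of a filling is
a special case of the new one.
-/

set_option autoImplicit false

namespace Pool.Agent.Helper76.MX

open Pool.Agent.Helper42.Th hiding Fill
open Pool.Agent.Helper42.GS (words_comm)

variable {G : Type*} [Group G]

lemma semi_of_list {K : Subgroup G} {x : G} (y : G) (l : List G) (hl : l ≠ [])
    (hK : ∀ g ∈ l, g ∈ K) : Semi K x y (l.map fun g => g * x * g⁻¹).prod := by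
  induction l with
  | nil => exact absurd rfl hl
  | cons g l ih =>
    rw [List.map_cons, List.prod_cons]
    have hg : Semi K x y (g * x * g⁻¹) := Semi.conj (hK g (by simp)) Semi.left
    rcases eq_or_ne l [] with rfl | h
    · simpa using hg
    · exact Semi.mul hg (ih h fun u hu => hK u (by simp [hu]))

/-- A generalized torsion element has mixed torsion with every element. -/
lemma torsion_of_torsion {S : Set G} {x : G} (y : G) (h : Pool.Agent.Helper42.GS.Torsion S x) :
    Torsion S x y := by
  obtain ⟨l, hl, hK, h1⟩ := h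
  have := semi_of_list (K := Subgroup.closure S) (x := x) y l hl hK
  rwa [h1] at this

/-- Every filling in the older sense, in particular every generalized solid torus, is a
filling. -/
theorem fill_of_fill {m a : G} {S : Set G} (h : Pool.Agent.Helper89.GS2.Fill m a S) :
    Fill m a S := by
  induction h with
  | solid m a d c hd hc h => exact Fill.solid m a d c hd hc h
  | cone m a Γ L δ hl hb P F hP hF P₁ Q₁ P₂ Q₂ hP₁ hQ₁ hP₂ hQ₂ hdet hm ha ih =>
    exact Fill.cone m a Γ L δ hl hb P F hP ih P₁ Q₁ P₂ Q₂ hP₁ hQ₁ hP₂ hQ₂ hdet hm ha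
  | like m a Γ L δ ε hN P F hP m' a' hw hF p q r s hdet hm ha d c hd hc h ih =>
    have hDM : Commute (L.D δ) (L.M δ) := (comm_MD L δ).symm
    have hma : Commute m a := by
      rw [hm, ha]
      exact words_comm hDM p q r s
    have key : ∀ u v u' v' k : ℤ, L.D δ ^ u * L.M δ ^ v * (L.D δ ^ u' * L.M δ ^ v') ^ k =
        L.D δ ^ (u + u' * k) * L.M δ ^ (v + v' * k) := by
      intro u v u' v' k
      rw [(hDM.zpow_zpow u' v').mul_zpow, ← zpow_mul, ← zpow_mul, zpow_add, zpow_add,
        mul_assoc, ← mul_assoc (L.M δ ^ v), (hDM.symm.zpow_zpow v (u' * k)).eq]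
      simp only [mul_assoc]
    have hx : m ^ d * (a ^ c)⁻¹ =
        L.D δ ^ (p * d + r * (-c : ℤ)) * L.M δ ^ (q * d + s * (-c : ℤ)) := by
      have h1 := key 0 0 p q d
      rw [zpow_zero, zpow_zero, one_mul, one_mul, ← hm, zero_add, zero_add, zpow_natCast] at h1
      rw [h1, ← key, ← ha, zpow_neg, zpow_natCast]
    refine Fill.mixed m a Γ L δ ε hN P F hP m' a' hw ih (m ^ d * (a ^ c)⁻¹)
      (a * (m ^ d * (a ^ c)⁻¹)⁻¹) ⟨p, q, r, s, hdet, hm, ha⟩ ?_ (torsion_of_torsion _ h)
      d 1 (c + 1) c 1 1 hd one_pos (Nat.succ_pos c) hc one_pos one_pos ?_ ?_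
    · refine ⟨_, _, r + (p * d + r * (-c : ℤ)) * -1, s + (q * d + s * (-c : ℤ)) * -1, ?_, hx, ?_⟩
      · intro e
        apply hdet
        have hd' : (d : ℤ) ≠ 0 := by exact_mod_cast hd.ne'
        apply mul_right_cancel₀ hd'
        linear_combination e
      · rw [← key, ← ha, ← hx, zpow_neg, zpow_one]
    · have hxa : Commute (m ^ d * (a ^ c)⁻¹) a :=
        (hma.pow_left d).mul_left ((Commute.refl a).pow_left c).inv_left
      rw [(hxa.symm.inv_right).mul_pow, pow_succ', mul_assoc, ← mul_assoc _ (a ^ c),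
        (hxa.pow_pow c c).eq, mul_assoc (a ^ c), inv_pow, mul_inv_cancel, mul_one, mul_assoc,
        inv_mul_cancel, mul_one]
    · rw [pow_one, pow_one, pow_one]
      have hxa : Commute (m ^ d * (a ^ c)⁻¹) a :=
        (hma.pow_left d).mul_left ((Commute.refl a).pow_left c).inv_left
      rw [← mul_assoc, hxa.eq, mul_assoc, mul_inv_cancel, mul_one]

end Pool.Agent.Helper76.MX
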